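import Mathlib

/-!
# Two-dimensional `U`-bootstrap percolation: definitions
-/

open MeasureTheory Set
open scoped ENNReal unitInterval

namespace Pool.Agent.X139.UB

/-- Sites of the square lattice. -/
abbrev Site := ℤ × ℤ

/-- One time step of the `U`-bootstrap process: the site `x` becomes infected as soon as all the
sites of `x + X` are infected for some rule `X ∈ U`. -/
def step (U : Finset (Finset Site)) (A : Set Site) : Set Site :=
  A ∪ {x | ∃ X ∈ U, ∀ v ∈ X, x + v ∈ A}

/-- The infected set `A_t` at time `t`, started from `A_0 = A`. -/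
def evolve (U : Finset (Finset Site)) (A : Set Site) : ℕ → Set Site
  | 0 => A
  | t + 1 => step U (evolve U A t)

/-- The closure `[A]`. -/
def span (U : Finset (Finset Site)) (A : Set Site) : Set Site := ⋃ t, evolve U A t

/-- The half plane `H_u` for the unit vector `u = (cos θ, sin θ)`. -/
def halfPlane (θ : ℝ) : Set Site :=
  {x | (x.1 : ℝ) * Real.cos θ + (x.2 : ℝ) * Real.sin θ < 0}

/-- The direction `u = (cos θ, sin θ)` is stable. -/
def StableDir (U : Finset (Finset Site)) (θ : ℝ) : Prop :=
  span U (halfPlane θ) = halfPlane θ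

/-- The family `U` is subcritical: the stable set meets every open semicircle in a set of
positive arc length. -/
def Subcritical (U : Finset (Finset Site)) : Prop :=
  ∀ α : ℝ, 0 < volume {θ : ℝ | α - Real.pi / 2 < θ ∧ θ < α + Real.pi / 2 ∧ StableDir U θ}

/-- The law of one site: `true` (initially infected) with probability `p`. -/
noncomputable def bern (p : I) : Measure Bool :=
  ENNReal.ofReal (p : ℝ) • Measure.dirac true + ENNReal.ofReal (1 - (p : ℝ)) • Measure.dirac false

instance (p : I) : IsProbabilityMeasure (bern p) := by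
  constructor
  have h0 : (0 : ℝ) ≤ p := p.2.1
  have h1 : (0 : ℝ) ≤ 1 - p := sub_nonneg.2 p.2.2
  simp only [bern, Measure.coe_add, Measure.coe_smul, Pi.add_apply, Pi.smul_apply, measure_univ,
    smul_eq_mul, mul_one]
  rw [← ENNReal.ofReal_add h0 h1]
  simp

/-- The product measure `P_p` on `{0,1}^{ℤ²}`. -/
noncomputable def Pr (p : I) : Measure (Site → Bool) := Measure.infinitePi fun _ => bern p

instance (p : I) : IsProbabilityMeasure (Pr p) := by unfold Pr; infer_instance

/-- The random initial set. -/
def init (ω : Site → Bool) : Set Site := {x | ω x = true}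

/-- Percolation: `[A] = ℤ²`. -/
def Percolates (U : Finset (Finset Site)) (ω : Site → Bool) : Prop := span U (init ω) = univ

/-- The critical probability `p_c(U) = inf {p : P_p([A] = ℤ²) = 1}`. -/
noncomputable def pc (U : Finset (Finset Site)) : I := sInf {p : I | Pr p {ω | Percolates U ω} = 1}

/-- The occupation time `T = min {t ≥ 0 : 0 ∈ A_t}` of the origin (`⊤` if `0 ∉ [A]`). -/
noncomputable def occTime (U : Finset (Finset Site)) (ω : Site → Bool) : ℕ∞ :=
  ⨅ (t : ℕ) (_ : (0 : Site) ∈ evolve U (init ω) t), (t : ℕ∞)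

/-- The mean occupation time `E_p T`. -/
noncomputable def meanT (U : Finset (Finset Site)) (p : I) : ℝ≥0∞ :=
  ∫⁻ ω, (occTime U ω : ℝ≥0∞) ∂(Pr p)

/-- The rule `X` is contained in an open half plane `{x : ⟨u, x⟩ > 0}`. -/
def InOpenHalfPlane (X : Finset Site) : Prop :=
  ∃ u : ℝ × ℝ, ∀ v ∈ X, 0 < u.1 * (v.1 : ℝ) + u.2 * (v.2 : ℝ)

end Pool.Agent.X139.UB
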