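import Mathlib
import Pool.Agent.X139.UB.Defs

/-!
# Cylinder events, independence, translation invariance, continuity in `p`
-/

open MeasureTheory Set ProbabilityTheory
open scoped ENNReal unitInterval

namespace Pool.Agent.X139.UB

/-- The event `E` only depends on the sites of `S`. -/
def DepOn (E : Set (Site → Bool)) (S : Finset Site) : Prop :=
  ∀ ω ω' : Site → Bool, (∀ x ∈ S, ω x = ω' x) → (ω ∈ E ↔ ω' ∈ E)

theorem DepOn.eq_cyl {E : Set (Site → Bool)} {S : Finset Site} (h : DepOn E S) :
    E = (fun (ω : Site → Bool) (i : S) => ω i) ⁻¹'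
      ((fun (ω : Site → Bool) (i : S) => ω i) '' E) := by
  ext ω
  simp only [mem_preimage, mem_image]
  constructor
  · intro hω; exact ⟨ω, hω, rfl⟩
  · rintro ⟨ω', h', he⟩
    refine (h ω' ω fun x hx => ?_).1 h'
    exact congrFun he ⟨x, hx⟩

theorem DepOn.measurableSet {E : Set (Site → Bool)} {S : Finset Site} (h : DepOn E S) :
    MeasurableSet E := by
  rw [h.eq_cyl]
  apply MeasurableSet.preimage
  · exact (Set.toFinite _).measurableSet
  · fun_prop

theorem pr_inter (p : I) {S S' : Finset Site} (hd : Disjoint S S') {E E' : Set (Site → Bool)}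
    (hE : DepOn E S) (hE' : DepOn E' S') : Pr p (E ∩ E') = Pr p E * Pr p E' := by
  have hI : iIndepFun (fun (i : Site) (ω : Site → Bool) => ω i) (Pr p) := by
    have := iIndepFun_infinitePi (P := fun _ : Site => bern p) (X := fun (_ : Site) (b : Bool) => b)
      (fun i => measurable_id)
    exact this
  have h2 := hI.indepFun_finset S S' hd (fun i => measurable_pi_apply i)
  rw [hE.eq_cyl, hE'.eq_cyl]
  exact h2.measure_inter_preimage_eq_mul _ _ (Set.toFinite _).measurableSet
    (Set.toFinite _).measurableSet

/-- the weight of a value -/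
def wt (p : I) (b : Bool) : ℝ := if b then (p : ℝ) else 1 - (p : ℝ)

theorem bern_singleton (p : I) (b : Bool) : (bern p {b}).toReal = wt p b := by
  have h0 : (0 : ℝ) ≤ p := p.2.1
  have h1 : (0 : ℝ) ≤ 1 - p := sub_nonneg.2 p.2.2
  cases b <;> simp [bern, wt, h0, h1]

open Classical in
theorem pr_real (p : I) {S : Finset Site} {E : Set (Site → Bool)} (hE : DepOn E S) :
    (Pr p E).toReal = ∑ a : S → Bool,
      if a ∈ ((fun (ω : Site → Bool) (i : S) => ω i) '' E) then ∏ i, wt p (a i) else 0 := by
  set B : Set (S → Bool) := ((fun (ω : Site → Bool) (i : S) => ω i) '' E) with hB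
  have h1 : Pr p E = Measure.pi (fun _ : S => bern p) B := by
    conv_lhs => rw [hE.eq_cyl]
    have hm : MeasurableSet B := (Set.toFinite _).measurableSet
    rw [← Measure.infinitePi_cylinder (μ := fun _ : Site => bern p) hm]
    rfl
  rw [h1]
  have h2 : B = ⋃ a ∈ (Finset.univ.filter (fun a => a ∈ B) : Finset (S → Bool)), {a} := by
    ext a; simp
  have h3 : Measure.pi (fun _ : S => bern p) B =
      ∑ a ∈ (Finset.univ.filter (fun a => a ∈ B) : Finset (S → Bool)),
        Measure.pi (fun _ : S => bern p) {a} := by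
    conv_lhs => rw [h2]
    rw [measure_biUnion_finset]
    · intro a _ b _ hab
      simpa using hab
    · intro a _
      exact measurableSet_singleton a
  rw [h3, ENNReal.toReal_sum (fun a _ => measure_ne_top _ _), Finset.sum_filter]
  refine Finset.sum_congr rfl fun a _ => ?_
  split_ifs with h
  · rw [Measure.pi_singleton, ENNReal.toReal_prod]
    exact Finset.prod_congr rfl fun i _ => bern_singleton p (a i)
  · rfl

theorem continuous_wt (b : Bool) : Continuous fun p : I => wt p b := by
  cases b
  · simp only [wt, Bool.false_eq_true, if_false]; fun_prop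
  · simp only [wt, if_true]; fun_prop

theorem continuous_pr {S : Finset Site} {E : Set (Site → Bool)} (hE : DepOn E S) :
    Continuous fun p : I => (Pr p E).toReal := by
  classical
  have : (fun p : I => (Pr p E).toReal) = fun p : I => ∑ a : S → Bool,
      if a ∈ ((fun (ω : Site → Bool) (i : S) => ω i) '' E) then ∏ i, wt p (a i) else 0 := by
    funext p; exact pr_real p hE
  rw [this]
  refine continuous_finsetSum _ fun a _ => ?_
  split_ifs
  · exact continuous_finsetProd _ fun i _ => continuous_wt (a i)
  · exact continuous_const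

/-- translation of configurations -/
def shift (y : Site) (ω : Site → Bool) : Site → Bool := fun x => ω (x + y)

theorem measurable_shift (y : Site) : Measurable (shift y) :=
  measurable_pi_lambda _ fun x => measurable_pi_apply (x + y)

theorem map_shift (p : I) (y : Site) : (Pr p).map (shift y) = Pr p := by
  have h := Measure.infinitePi_map_piCongrLeft (μ := fun _ : Site => bern p) (Equiv.subRight y)
  have h2 : (⇑(MeasurableEquiv.piCongrLeft (fun _ : Site => Bool) (Equiv.subRight y))) = shift y := by
    funext ω x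
    have := Equiv.piCongrLeft_apply_apply (fun _ : Site => Bool) (Equiv.subRight y) ω (x + y)
    rw [MeasurableEquiv.coe_piCongrLeft]
    simpa [shift] using this
  rw [h2] at h
  exact h

theorem evolve_mono (U : Finset (Finset Site)) (A : Set Site) {s t : ℕ} (h : s ≤ t) :
    evolve U A s ⊆ evolve U A t := by
  induction h with
  | refl => exact subset_rfl
  | step _ ih => exact ih.trans subset_union_left

theorem evolve_shift (U : Finset (Finset Site)) (y : Site) (ω : Site → Bool) (t : ℕ) (x : Site) :
    x ∈ evolve U (init (shift y ω)) t ↔ x + y ∈ evolve U (init ω) t := by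
  induction t generalizing x with
  | zero => rfl
  | succ t ih =>
    simp only [evolve, step, mem_union, mem_setOf_eq, ih]
    have : ∀ v : Site, x + v + y = x + y + v := fun v => by abel
    simp only [this]

/-- The box of radius `n` around `x`. -/
noncomputable def box (x : Site) (n : ℤ) : Finset Site :=
  Finset.Icc (x.1 - n) (x.1 + n) ×ˢ Finset.Icc (x.2 - n) (x.2 + n)

theorem mem_box {x y : Site} {n : ℤ} :
    y ∈ box x n ↔ (x.1 - n ≤ y.1 ∧ y.1 ≤ x.1 + n) ∧ (x.2 - n ≤ y.2 ∧ y.2 ≤ x.2 + n) := by
  simp [box]

/-- `r` bounds the range of the family. -/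
def RangeLe (U : Finset (Finset Site)) (r : ℤ) : Prop :=
  0 ≤ r ∧ ∀ X ∈ U, ∀ v ∈ X, |v.1| ≤ r ∧ |v.2| ≤ r

theorem exists_range (U : Finset (Finset Site)) : ∃ r : ℤ, RangeLe U r := by
  classical
  refine ⟨∑ X ∈ U, ∑ v ∈ X, (|v.1| + |v.2|), ?_, ?_⟩
  · positivity
  · intro X hX v hv
    have h1 : |v.1| + |v.2| ≤ ∑ v ∈ X, (|v.1| + |v.2|) :=
      Finset.single_le_sum (f := fun v : Site => |v.1| + |v.2|) (fun _ _ => by positivity) hv
    have h2 : ∑ v ∈ X, (|v.1| + |v.2|) ≤ ∑ X ∈ U, ∑ v ∈ X, (|v.1| + |v.2|) :=
      Finset.single_le_sum (f := fun X : Finset Site => ∑ v ∈ X, (|v.1| + |v.2|))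
        (fun _ _ => by positivity) hX
    have a1 := abs_nonneg v.1
    have a2 := abs_nonneg v.2
    constructor <;> linarith

theorem evolve_local {U : Finset (Finset Site)} {r : ℤ} (hr : RangeLe U r) (t : ℕ) (x : Site)
    (ω ω' : Site → Bool) (h : ∀ y ∈ box x (r * t), ω y = ω' y) :
    x ∈ evolve U (init ω) t ↔ x ∈ evolve U (init ω') t := by
  induction t generalizing x with
  | zero =>
    have : ω x = ω' x := h x (by simp [mem_box])
    simp [evolve, init, this]
  | succ t ih =>
    simp only [evolve, step, mem_union, mem_setOf_eq]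
    have hr0 := hr.1
    have hx : x ∈ evolve U (init ω) t ↔ x ∈ evolve U (init ω') t := by
      apply ih
      intro y hy
      apply h
      rw [mem_box] at hy ⊢
      have : r * (t : ℤ) ≤ r * ((t + 1 : ℕ) : ℤ) := by
        apply mul_le_mul_of_nonneg_left _ hr0
        push_cast; linarith
      constructor <;> constructor <;> linarith [hy.1.1, hy.1.2, hy.2.1, hy.2.2]
    have hv : ∀ X ∈ U, ∀ v ∈ X,
        (x + v ∈ evolve U (init ω) t ↔ x + v ∈ evolve U (init ω') t) := by
      intro X hX v hvX
      apply ih
      intro y hy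
      apply h
      obtain ⟨h1, h2⟩ := hr.2 X hX v hvX
      rw [abs_le] at h1 h2
      rw [mem_box] at hy ⊢
      simp only [Prod.fst_add, Prod.snd_add] at hy
      have : r * ((t + 1 : ℕ) : ℤ) = r * (t : ℤ) + r := by push_cast; ring
      rw [this]
      constructor <;> constructor <;> linarith [hy.1.1, hy.1.2, hy.2.1, hy.2.2, h1.1, h1.2, h2.1, h2.2]
    rw [hx]
    apply or_congr Iff.rfl
    constructor
    · rintro ⟨X, hX, h⟩
      exact ⟨X, hX, fun v hvX => (hv X hX v hvX).1 (h v hvX)⟩
    · rintro ⟨X, hX, h⟩
      exact ⟨X, hX, fun v hvX => (hv X hX v hvX).2 (h v hvX)⟩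

/-- The event that `x` is healthy at time `t`. -/
def healthy (U : Finset (Finset Site)) (t : ℕ) (x : Site) : Set (Site → Bool) :=
  {ω | x ∉ evolve U (init ω) t}

theorem healthy_depOn {U : Finset (Finset Site)} {r : ℤ} (hr : RangeLe U r) (t : ℕ) (x : Site) :
    DepOn (healthy U t x) (box x (r * t)) := by
  intro ω ω' h
  exact not_congr (evolve_local hr t x ω ω' h)

theorem pr_healthy {U : Finset (Finset Site)} (p : I) (t : ℕ) (x : Site) :
    Pr p (healthy U t x) = Pr p (healthy U t 0) := by
  obtain ⟨r, hr⟩ := exists_range U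
  have h1 : healthy U t x = shift x ⁻¹' (healthy U t 0) := by
    ext ω
    simp only [healthy, mem_setOf_eq, mem_preimage, evolve_shift, zero_add]
  rw [h1, ← Measure.map_apply (measurable_shift x) (healthy_depOn hr t 0).measurableSet, map_shift]

end Pool.Agent.X139.UB
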