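import Mathlib
import Pool.Agent.X139.UB.Basic

/-!
# The finite-size criterion
-/

open MeasureTheory Set ProbabilityTheory
open scoped ENNReal unitInterval

namespace Pool.Agent.X139.UB

/-- the linear form `a x + b y` -/
def lin (a b : ℤ) (x : Site) : ℤ := a * x.1 + b * x.2

theorem lin_add (a b : ℤ) (x y : Site) : lin a b (x + y) = lin a b x + lin a b y := by
  simp only [lin, Prod.fst_add, Prod.snd_add]; ring

/-- spacing -/
def len (a b r : ℤ) (t : ℕ) : ℤ := 2 * (|a| + |b|) * (r * t) + 1

/-- width -/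
def wid (a b r : ℤ) : ℤ := (|a| + |b|) * r + 1

open Classical in
/-- increments -/
noncomputable def inc (a b r : ℤ) (t : ℕ) : Finset Site :=
  (Finset.Icc (-(r * len a b r t)) (r * len a b r t) ×ˢ
    Finset.Icc (-(r * len a b r t)) (r * len a b r t)).filter
    fun d => len a b r t ≤ lin a b d ∧ lin a b d < len a b r t + wid a b r

theorem len_pos (a b : ℤ) {r : ℤ} (hr : 0 ≤ r) (t : ℕ) : 0 < len a b r t := by
  unfold len; positivity

theorem card_inc {a b r : ℤ} (hb : b ≠ 0) (hr : 0 ≤ r) (t : ℕ) :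
    ((inc a b r t).card : ℤ) ≤ (2 * (r * len a b r t) + 1) * wid a b r := by
  classical
  have hL := len_pos a b hr t
  have h1 : (inc a b r t).card ≤ (Finset.Icc (-(r * len a b r t)) (r * len a b r t) ×ˢ
      Finset.Ico (len a b r t) (len a b r t + wid a b r)).card := by
    apply Finset.card_le_card_of_injOn (fun d => (d.1, lin a b d))
    · intro d hd
      have hd' := (Finset.mem_filter.1 (Finset.mem_coe.1 hd))
      have h2 := Finset.mem_product.1 hd'.1
      simp only [Finset.coe_product, Finset.coe_Icc, Finset.coe_Ico, mem_prod]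
      exact ⟨by simpa using h2.1, hd'.2⟩
    · intro d _ d' _ he
      simp only [Prod.mk.injEq, lin] at he
      obtain ⟨e1, e2⟩ := he
      rw [e1] at e2
      have : b * d.2 = b * d'.2 := by linarith
      exact Prod.ext e1 (mul_left_cancel₀ hb this)
  have h3 : ((Finset.Icc (-(r * len a b r t)) (r * len a b r t) ×ˢ
      Finset.Ico (len a b r t) (len a b r t + wid a b r)).card : ℤ) =
      (2 * (r * len a b r t) + 1) * wid a b r := by
    rw [Finset.card_product, Int.card_Icc, Int.card_Ico]
    have e1 : 0 ≤ r * len a b r t := by positivity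
    have e2 : 0 ≤ wid a b r := by unfold wid; positivity
    push_cast
    rw [Int.toNat_of_nonneg (by linarith), Int.toNat_of_nonneg (by linarith)]
    ring
  calc ((inc a b r t).card : ℤ) ≤ _ := by exact_mod_cast h1
    _ = _ := h3

variable {U : Finset (Finset Site)} {a b r : ℤ} {X₁ : Finset Site}

theorem healthy_step (hX : X₁ ∈ U) (A : Set Site) {x : Site} (hx : x ∉ span U A) :
    ∃ v ∈ X₁, x + v ∉ span U A := by
  classical
  by_contra hcon
  push Not at hcon
  apply hx
  simp only [span, mem_iUnion] at hcon ⊢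
  choose! τ hτ using hcon
  refine ⟨X₁.sup τ + 1, Or.inr ⟨X₁, hX, fun v hv => ?_⟩⟩
  exact evolve_mono U A (Finset.le_sup hv) (hτ v hv)

theorem chain (hr : RangeLe U r) (hX : X₁ ∈ U) (hlin : ∀ v ∈ X₁, 1 ≤ lin a b v) (A : Set Site)
    {x : Site} (hx : x ∉ span U A) (n : ℕ) :
    ∃ d : Site, x + d ∉ span U A ∧ (n : ℤ) ≤ lin a b d ∧ lin a b d < n + wid a b r ∧
      (-(r * n) ≤ d.1 ∧ d.1 ≤ r * n) ∧ (-(r * n) ≤ d.2 ∧ d.2 ≤ r * n) := by
  have hr0 := hr.1
  have hw : 1 ≤ wid a b r := by
    have : 0 ≤ (|a| + |b|) * r := by positivity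
    unfold wid; linarith
  induction n with
  | zero =>
    refine ⟨0, by simpa using hx, ?_⟩
    simp only [lin, Prod.fst_zero, Prod.snd_zero]
    push_cast
    refine ⟨by linarith, by linarith, ⟨by simp, by simp⟩, ⟨by simp, by simp⟩⟩
  | succ n ih =>
    obtain ⟨d, h1, h2, h3, h4, h5⟩ := ih
    by_cases hc : ((n + 1 : ℕ) : ℤ) ≤ lin a b d
    · refine ⟨d, h1, hc, ?_, ?_, ?_⟩
      · push_cast; linarith
      · have : r * ((n + 1 : ℕ) : ℤ) = r * n + r := by push_cast; ring
        rw [this]; constructor <;> linarith [h4.1, h4.2]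
      · have : r * ((n + 1 : ℕ) : ℤ) = r * n + r := by push_cast; ring
        rw [this]; constructor <;> linarith [h5.1, h5.2]
    · have he : lin a b d = n := by
        push_cast at hc
        omega
      obtain ⟨v, hv, hv2⟩ := healthy_step hX A h1
      obtain ⟨r1, r2⟩ := hr.2 X₁ hX v hv
      have hlv : lin a b v ≤ (|a| + |b|) * r := by
        have e1 : a * v.1 ≤ |a| * r := by
          calc a * v.1 ≤ |a * v.1| := le_abs_self _
            _ = |a| * |v.1| := abs_mul _ _
            _ ≤ |a| * r := mul_le_mul_of_nonneg_left r1 (abs_nonneg _)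
        have e2 : b * v.2 ≤ |b| * r := by
          calc b * v.2 ≤ |b * v.2| := le_abs_self _
            _ = |b| * |v.2| := abs_mul _ _
            _ ≤ |b| * r := mul_le_mul_of_nonneg_left r2 (abs_nonneg _)
        unfold lin; nlinarith
      rw [abs_le] at r1 r2
      have hl1 := hlin v hv
      refine ⟨d + v, by rwa [← add_assoc], ?_, ?_, ?_, ?_⟩
      · rw [lin_add]; push_cast; linarith
      · rw [lin_add, wid]; push_cast; linarith
      · have : r * ((n + 1 : ℕ) : ℤ) = r * n + r := by push_cast; ring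
        rw [this]; simp only [Prod.fst_add]; constructor <;> linarith [h4.1, h4.2, r1.1, r1.2]
      · have : r * ((n + 1 : ℕ) : ℤ) = r * n + r := by push_cast; ring
        rw [this]; simp only [Prod.snd_add]; constructor <;> linarith [h5.1, h5.2, r2.1, r2.2]

theorem chain_inc (hr : RangeLe U r) (hX : X₁ ∈ U) (hlin : ∀ v ∈ X₁, 1 ≤ lin a b v) (A : Set Site)
    {x : Site} (hx : x ∉ span U A) (t : ℕ) : ∃ d ∈ inc a b r t, x + d ∉ span U A := by
  have hL := len_pos a b hr.1 t
  obtain ⟨d, h1, h2, h3, h4, h5⟩ := chain hr hX hlin A hx (len a b r t).toNat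
  rw [Int.toNat_of_nonneg hL.le] at h2 h3 h4 h5
  refine ⟨d, ?_, h1⟩
  simp only [inc, Finset.mem_filter, Finset.mem_product, Finset.mem_Icc]
  exact ⟨⟨h4, h5⟩, h2, h3⟩

/-- The event that there is a chain of `k` healthy sites. -/
def Gev (U : Finset (Finset Site)) (a b r : ℤ) (t : ℕ) : ℕ → Site → Set (Site → Bool)
  | 0, _ => univ
  | k + 1, x => ⋃ d ∈ inc a b r t, (healthy U t (x + d) ∩ Gev U a b r t k (x + d))

open Classical in
/-- its support -/
noncomputable def Sup (a b r : ℤ) (t : ℕ) : ℕ → Site → Finset Site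
  | 0, _ => ∅
  | k + 1, x => (inc a b r t).biUnion fun d => box (x + d) (r * t) ∪ Sup a b r t k (x + d)

theorem Gev_depOn (hr : RangeLe U r) (t k : ℕ) (x : Site) :
    DepOn (Gev U a b r t k x) (Sup a b r t k x) := by
  classical
  induction k generalizing x with
  | zero => intro ω ω' _; simp [Gev]
  | succ k ih =>
    intro ω ω' h
    simp only [Gev, mem_iUnion, mem_inter_iff, exists_prop]
    apply exists_congr
    intro d
    apply and_congr_right
    intro hd
    have h1 : ∀ y ∈ box (x + d) (r * t), ω y = ω' y := by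
      intro y hy
      apply h
      simp only [Sup, Finset.mem_biUnion, Finset.mem_union]
      exact ⟨d, hd, Or.inl hy⟩
    have h2 : ∀ y ∈ Sup a b r t k (x + d), ω y = ω' y := by
      intro y hy
      apply h
      simp only [Sup, Finset.mem_biUnion, Finset.mem_union]
      exact ⟨d, hd, Or.inr hy⟩
    exact and_congr (healthy_depOn hr t (x + d) ω ω' h1) (ih (x + d) ω ω' h2)

theorem lin_box {t : ℕ} {x y : Site} (hy : y ∈ box x (r * t)) :
    lin a b x - (|a| + |b|) * (r * t) ≤ lin a b y ∧
    lin a b y ≤ lin a b x + (|a| + |b|) * (r * t) := by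
  rw [mem_box] at hy
  have h1 : |y.1 - x.1| ≤ r * t := abs_le.2 ⟨by linarith [hy.1.1], by linarith [hy.1.2]⟩
  have h2 : |y.2 - x.2| ≤ r * t := abs_le.2 ⟨by linarith [hy.2.1], by linarith [hy.2.2]⟩
  have e1 : |a * (y.1 - x.1)| ≤ |a| * (r * t) := by
    rw [abs_mul]; exact mul_le_mul_of_nonneg_left h1 (abs_nonneg _)
  have e2 : |b * (y.2 - x.2)| ≤ |b| * (r * t) := by
    rw [abs_mul]; exact mul_le_mul_of_nonneg_left h2 (abs_nonneg _)
  rw [abs_le] at e1 e2
  have e3 : (|a| + |b|) * (r * t) = |a| * (r * t) + |b| * (r * t) := by ring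
  rw [e3]
  simp only [lin]
  have e4 : a * (y.1 - x.1) = a * y.1 - a * x.1 := by ring
  have e5 : b * (y.2 - x.2) = b * y.2 - b * x.2 := by ring
  rw [e4] at e1
  rw [e5] at e2
  constructor <;> linarith [e1.1, e1.2, e2.1, e2.2]

theorem lin_Sup (hr : 0 ≤ r) (t k : ℕ) (x : Site) :
    ∀ w ∈ Sup a b r t k x, lin a b x + len a b r t - (|a| + |b|) * (r * t) ≤ lin a b w := by
  classical
  have hL := len_pos a b hr t
  induction k generalizing x with
  | zero => intro w hw; simp [Sup] at hw
  | succ k ih =>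
    intro w hw
    simp only [Sup, Finset.mem_biUnion, Finset.mem_union] at hw
    obtain ⟨d, hd, hw⟩ := hw
    have hd2 : len a b r t ≤ lin a b d := (Finset.mem_filter.1 hd).2.1
    rcases hw with hw | hw
    · have := (lin_box (a := a) (b := b) hw).1
      rw [lin_add] at this
      linarith
    · have := ih (x + d) w hw
      rw [lin_add] at this
      linarith

theorem disj (hr : 0 ≤ r) (t k : ℕ) (x : Site) :
    Disjoint (box x (r * t)) (Sup a b r t k x) := by
  rw [Finset.disjoint_left]
  intro w h1 h2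
  have h3 := (lin_box (a := a) (b := b) h1).2
  have h4 := lin_Sup (a := a) (b := b) hr t k x w h2
  unfold len at h4
  have : 2 * (|a| + |b|) * (r * t) = (|a| + |b|) * (r * t) + (|a| + |b|) * (r * t) := by ring
  linarith

theorem pr_Gev (hr : RangeLe U r) (p : I) (t k : ℕ) (x : Site) :
    Pr p (Gev U a b r t k x) ≤ ((inc a b r t).card * Pr p (healthy U t 0)) ^ k := by
  induction k generalizing x with
  | zero => simp [Gev]
  | succ k ih =>
    calc Pr p (Gev U a b r t (k + 1) x)
        ≤ ∑ d ∈ inc a b r t, Pr p (healthy U t (x + d) ∩ Gev U a b r t k (x + d)) :=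
          measure_biUnion_finset_le _ _
      _ = ∑ d ∈ inc a b r t, Pr p (healthy U t 0) * Pr p (Gev U a b r t k (x + d)) := by
          refine Finset.sum_congr rfl fun d _ => ?_
          rw [pr_inter p (disj hr.1 t k (x + d)) (healthy_depOn hr t (x + d))
            (Gev_depOn hr t k (x + d)), pr_healthy p t (x + d)]
      _ ≤ ∑ d ∈ inc a b r t, Pr p (healthy U t 0) *
            ((inc a b r t).card * Pr p (healthy U t 0)) ^ k :=
          Finset.sum_le_sum fun d _ => mul_le_mul_right (ih (x + d)) _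
      _ = ((inc a b r t).card * Pr p (healthy U t 0)) ^ (k + 1) := by
          rw [Finset.sum_const, nsmul_eq_mul, pow_succ]; ring

theorem never_sub_Gev (hr : RangeLe U r) (hX : X₁ ∈ U) (hlin : ∀ v ∈ X₁, 1 ≤ lin a b v)
    (t k : ℕ) (x : Site) (ω : Site → Bool) (hx : x ∉ span U (init ω)) :
    ω ∈ Gev U a b r t k x := by
  induction k generalizing x with
  | zero => simp [Gev]
  | succ k ih =>
    obtain ⟨d, hd, hxd⟩ := chain_inc hr hX hlin (init ω) hx t
    simp only [Gev, mem_iUnion, mem_inter_iff, exists_prop]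
    refine ⟨d, hd, ?_, ih (x + d) hxd⟩
    intro h
    exact hxd (mem_iUnion.2 ⟨t, h⟩)

/-- **Finite-size criterion.** -/
theorem criterion (hr : RangeLe U r) (hX : X₁ ∈ U) (hlin : ∀ v ∈ X₁, 1 ≤ lin a b v)
    (p : I) (t : ℕ) (h : (inc a b r t).card * Pr p (healthy U t 0) < 1) :
    Pr p {ω | Percolates U ω} = 1 := by
  have h0 : ∀ x : Site, Pr p {ω | x ∉ span U (init ω)} = 0 := by
    intro x
    have hk : ∀ k : ℕ, Pr p {ω | x ∉ span U (init ω)} ≤
        ((inc a b r t).card * Pr p (healthy U t 0)) ^ k := fun k =>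
      (measure_mono fun ω hω => never_sub_Gev hr hX hlin t k x ω hω).trans
        (pr_Gev (a := a) (b := b) hr p t k x)
    exact le_antisymm (ge_of_tendsto' (ENNReal.tendsto_pow_atTop_nhds_zero_of_lt_one h) hk) bot_le
  have h1 : Pr p {ω | Percolates U ω}ᶜ = 0 := by
    have : {ω | Percolates U ω}ᶜ ⊆ ⋃ x : Site, {ω | x ∉ span U (init ω)} := by
      intro ω hω
      simp only [mem_compl_iff, mem_setOf_eq, Percolates] at hω
      obtain ⟨x, hx⟩ := (ne_univ_iff_exists_notMem _).1 hω
      exact mem_iUnion.2 ⟨x, hx⟩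
    exact measure_mono_null this (measure_iUnion_null h0)
  have h2 : {ω | Percolates U ω} =ᵐ[Pr p] univ := by
    rw [ae_eq_univ]; exact h1
  rw [measure_congr h2, measure_univ]

end Pool.Agent.X139.UB
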