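import Mathlib
import Pool.Agent.X139.UB.Crit

/-!
# Behaviour of the mean occupation time at criticality
-/

open MeasureTheory Set ProbabilityTheory Filter Topology
open scoped ENNReal unitInterval

namespace Pool.Agent.X139.UB

theorem bern_false (p : I) : bern p {false} = ENNReal.ofReal (1 - (p : ℝ)) := by
  simp [bern]

theorem bern_true (p : I) : bern p {true} = ENNReal.ofReal (p : ℝ) := by
  simp [bern]

theorem pr_site (p : I) (x : Site) (b : Bool) : Pr p {ω | ω x = b} = bern p {b} := by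
  have h := Measure.infinitePi_map_eval (fun _ : Site => bern p) x
  have h2 : {ω : Site → Bool | ω x = b} = (fun ω : Site → Bool => ω x) ⁻¹' ({b} : Set Bool) := rfl
  rw [h2, Pr, ← Measure.map_apply (measurable_pi_apply x) (measurableSet_singleton b)]
  exact congrArg (fun m : Measure Bool => m {b}) h

variable {U : Finset (Finset Site)} {a b r : ℤ} {X₁ : Finset Site}

theorem evolve_empty (hne : ∀ X ∈ U, X.Nonempty) (t : ℕ) : evolve U ∅ t = ∅ := by
  induction t with
  | zero => rfl
  | succ t ih =>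
    simp only [evolve, step, ih, empty_union]
    ext x
    simp only [mem_setOf_eq, mem_empty_iff_false, iff_false]
    rintro ⟨X, hX, h⟩
    obtain ⟨v, hv⟩ := hne X hX
    exact h v hv

theorem not_perc_zero (hne : ∀ X ∈ U, X.Nonempty) : Pr 0 {ω | Percolates U ω} ≠ 1 := by
  have h0 : Pr 0 (⋃ x : Site, {ω | ω x = true}) = 0 := by
    apply measure_iUnion_null
    intro x
    rw [pr_site, bern_true]; simp
  have hsub : {ω | Percolates U ω} ⊆ ⋃ x : Site, {ω | ω x = true} := by
    intro ω hω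
    by_contra hcon
    simp only [mem_iUnion, mem_setOf_eq, not_exists] at hcon
    have h1 : init ω = ∅ := by
      ext x; simp [init, hcon x]
    have h2 : span U (init ω) = ∅ := by
      rw [h1, span]; simp [evolve_empty hne]
    have h3 : (univ : Set Site) = ∅ := by rw [← h2]; exact hω.symm
    exact absurd h3 (univ_nonempty.ne_empty)
  rw [measure_mono_null hsub h0]
  exact zero_ne_one

theorem card_mul_ge (hne : ∀ X ∈ U, X.Nonempty) (hr : RangeLe U r) (hX : X₁ ∈ U)
    (hlin : ∀ v ∈ X₁, 1 ≤ lin a b v) (t : ℕ) :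
    1 ≤ (inc a b r t).card * Pr (pc U) (healthy U t 0) := by
  by_contra hcon
  push Not at hcon
  have hf : Continuous fun p : I => ((inc a b r t).card : ℝ) * (Pr p (healthy U t 0)).toReal :=
    continuous_const.mul (continuous_pr (healthy_depOn hr t 0))
  have key : ∀ p : I, (((inc a b r t).card : ℝ) * (Pr p (healthy U t 0)).toReal < 1 ↔
      (inc a b r t).card * Pr p (healthy U t 0) < 1) := by
    intro p
    have hfin : (inc a b r t).card * Pr p (healthy U t 0) ≠ ⊤ :=
      ENNReal.mul_ne_top (ENNReal.natCast_ne_top _) (measure_ne_top _ _)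
    rw [← ENNReal.toReal_lt_toReal hfin ENNReal.one_ne_top, ENNReal.toReal_mul]
    simp
  have h1 : ((inc a b r t).card : ℝ) * (Pr (pc U) (healthy U t 0)).toReal < 1 := (key _).2 hcon
  rcases eq_or_lt_of_le (show (0 : I) ≤ pc U from (pc U).2.1) with h0 | h0
  · rw [← h0] at hcon
    exact not_perc_zero hne (criterion hr hX hlin 0 t hcon)
  · have hev : {p : I | ((inc a b r t).card : ℝ) * (Pr p (healthy U t 0)).toReal < 1} ∈ 𝓝 (pc U) :=
      hf.continuousAt.eventually_lt_const h1
    obtain ⟨l, hl, hsub⟩ := exists_Ioc_subset_of_mem_nhds hev ⟨0, h0⟩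
    obtain ⟨p, hp1, hp2⟩ := exists_between hl
    have h2 : p ∈ Ioc l (pc U) := ⟨hp1, hp2.le⟩
    have h3 := (key p).1 (hsub h2)
    have h4 := criterion hr hX hlin p t h3
    have h5 : pc U ≤ p := sInf_le h4
    exact absurd hp2 (not_lt.2 h5)

theorem healthy_lower (hne : ∀ X ∈ U, X.Nonempty) (hr : RangeLe U r) (hX : X₁ ∈ U)
    (hb : b ≠ 0) (hlin : ∀ v ∈ X₁, 1 ≤ lin a b v) :
    ∃ c : ℝ, 0 < c ∧ ∀ t : ℕ, ENNReal.ofReal (c / (t + 1)) ≤ Pr (pc U) (healthy U t 0) := by
  set m : ℤ := |a| + |b| with hm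
  have hm0 : 0 ≤ m := by positivity
  have hr0 := hr.1
  set C : ℤ := (4 * m * r ^ 2 + 2 * r + 1) * wid a b r with hC
  have hwid : 1 ≤ wid a b r := by
    have : 0 ≤ (|a| + |b|) * r := by positivity
    unfold wid; linarith
  have hC1 : 1 ≤ C := by
    have : 1 ≤ 4 * m * r ^ 2 + 2 * r + 1 := by
      have : 0 ≤ 4 * m * r ^ 2 := by positivity
      linarith
    nlinarith
  have hCR : (0 : ℝ) < C := by exact_mod_cast (lt_of_lt_of_le one_pos hC1)
  refine ⟨1 / (C : ℝ), by positivity, fun t => ?_⟩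
  have h1 := card_mul_ge (a := a) (b := b) hne hr hX hlin t
  have hcard := card_inc (a := a) hb hr0 t
  have hcard2 : ((inc a b r t).card : ℤ) ≤ C * (t + 1) := by
    refine hcard.trans ?_
    have e1 : 2 * (r * len a b r t) + 1 = 4 * m * r ^ 2 * t + 2 * r + 1 := by
      rw [len, hm]; ring
    rw [e1, hC]
    have e2 : 4 * m * r ^ 2 * t + 2 * r + 1 ≤ (4 * m * r ^ 2 + 2 * r + 1) * (t + 1) := by
      have t0 : (0 : ℤ) ≤ t := Int.natCast_nonneg t
      have : 0 ≤ 4 * m * r ^ 2 := by positivity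
      nlinarith [mul_nonneg hr0 t0]
    calc (4 * m * r ^ 2 * t + 2 * r + 1) * wid a b r
        ≤ ((4 * m * r ^ 2 + 2 * r + 1) * (t + 1)) * wid a b r :=
          mul_le_mul_of_nonneg_right e2 (by linarith)
      _ = (4 * m * r ^ 2 + 2 * r + 1) * wid a b r * (t + 1) := by ring
  have hcardR : ((inc a b r t).card : ℝ) ≤ C * (t + 1) := by exact_mod_cast hcard2
  have hfin : (inc a b r t).card * Pr (pc U) (healthy U t 0) ≠ ⊤ :=
    ENNReal.mul_ne_top (ENNReal.natCast_ne_top _) (measure_ne_top _ _)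
  have h2 : (1 : ℝ) ≤ ((inc a b r t).card : ℝ) * (Pr (pc U) (healthy U t 0)).toReal := by
    have := (ENNReal.toReal_le_toReal ENNReal.one_ne_top hfin).2 h1
    rwa [ENNReal.toReal_mul, ENNReal.toReal_natCast, ENNReal.toReal_one] at this
  have h3 : (1 : ℝ) ≤ C * (t + 1) * (Pr (pc U) (healthy U t 0)).toReal :=
    h2.trans (mul_le_mul_of_nonneg_right hcardR ENNReal.toReal_nonneg)
  rw [ENNReal.ofReal_le_iff_le_toReal (measure_ne_top _ _)]
  have ht : (0 : ℝ) < t + 1 := by positivity
  rw [div_div, div_le_iff₀ (by positivity)]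
  linarith

theorem healthy_sub (t : ℕ) : healthy U t 0 ⊆ {ω | (t : ℕ∞) < occTime U ω} := by
  intro ω hω
  have h : ((t + 1 : ℕ) : ℕ∞) ≤ occTime U ω := by
    refine le_iInf₂ fun k hk => ?_
    have : t < k := by
      by_contra hcon
      exact hω (evolve_mono U (init ω) (not_lt.1 hcon) hk)
    exact_mod_cast this
  exact lt_of_lt_of_le (by exact_mod_cast Nat.lt_succ_self t) h

theorem sum_le_occ (n : ℕ) (ω : Site → Bool) :
    ∑ t ∈ Finset.range n, (healthy U t 0).indicator (fun _ => (1 : ℝ≥0∞)) ω ≤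
      (occTime U ω : ℝ≥0∞) := by
  classical
  have h1 : ∑ t ∈ Finset.range n, (healthy U t 0).indicator (fun _ => (1 : ℝ≥0∞)) ω =
      (((Finset.range n).filter fun t => ω ∈ healthy U t 0).card : ℝ≥0∞) := by
    rw [Finset.card_filter]
    push_cast
    refine Finset.sum_congr rfl fun t _ => ?_
    by_cases h : ω ∈ healthy U t 0 <;> simp [h]
  rw [h1]
  have h2 : ((((Finset.range n).filter fun t => ω ∈ healthy U t 0).card : ℕ) : ℕ∞) ≤
      occTime U ω := by
    refine le_iInf₂ fun k hk => ?_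
    have : (Finset.range n).filter (fun t => ω ∈ healthy U t 0) ⊆ Finset.range k := by
      intro t ht
      rw [Finset.mem_range]
      by_contra hcon
      exact (Finset.mem_filter.1 ht).2 (evolve_mono U (init ω) (not_lt.1 hcon) hk)
    have h3 := Finset.card_le_card this
    rw [Finset.card_range] at h3
    exact_mod_cast h3
  have h4 := ENat.toENNReal_le.2 h2
  simpa using h4

theorem sum_le_meanT (p : I) (n : ℕ) :
    ∑ t ∈ Finset.range n, Pr p (healthy U t 0) ≤ meanT U p := by
  obtain ⟨r, hr⟩ := exists_range U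
  have hm : ∀ t, MeasurableSet (healthy U t 0) := fun t => (healthy_depOn hr t 0).measurableSet
  calc ∑ t ∈ Finset.range n, Pr p (healthy U t 0)
      = ∑ t ∈ Finset.range n, ∫⁻ ω, (healthy U t 0).indicator (fun _ => (1 : ℝ≥0∞)) ω ∂(Pr p) := by
        refine Finset.sum_congr rfl fun t _ => ?_
        rw [lintegral_indicator_const (hm t), one_mul]
    _ = ∫⁻ ω, ∑ t ∈ Finset.range n, (healthy U t 0).indicator (fun _ => (1 : ℝ≥0∞)) ω ∂(Pr p) := by
        rw [lintegral_finsetSum]
        intro t _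
        exact measurable_const.indicator (hm t)
    _ ≤ meanT U p := lintegral_mono fun ω => sum_le_occ n ω

theorem meanT_eq_top (hne : ∀ X ∈ U, X.Nonempty) (hr : RangeLe U r) (hX : X₁ ∈ U)
    (hb : b ≠ 0) (hlin : ∀ v ∈ X₁, 1 ≤ lin a b v) : meanT U (pc U) = ⊤ := by
  obtain ⟨c, hc, hlow⟩ := healthy_lower hne hr hX hb hlin
  by_contra hcon
  have h1 : ∀ n : ℕ, c * ∑ t ∈ Finset.range n, 1 / ((t : ℝ) + 1) ≤ (meanT U (pc U)).toReal := by
    intro n
    rw [← ENNReal.ofReal_le_iff_le_toReal hcon]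
    refine le_trans ?_ (sum_le_meanT (pc U) n)
    rw [Finset.mul_sum, ENNReal.ofReal_sum_of_nonneg (fun t _ => by positivity)]
    refine Finset.sum_le_sum fun t _ => ?_
    rw [mul_one_div]
    exact hlow t
  have h2 : Tendsto (fun n : ℕ => c * ∑ t ∈ Finset.range n, 1 / ((t : ℝ) + 1)) atTop atTop :=
    Real.tendsto_sum_range_one_div_nat_succ_atTop.const_mul_atTop hc
  obtain ⟨n, hn⟩ := (h2.eventually_gt_atTop (meanT U (pc U)).toReal).exists
  exact absurd hn (not_lt.2 (h1 n))

theorem meanT_one : meanT U 1 = 0 ∧ ∀ᵐ ω ∂(Pr 1), occTime U ω = 0 := by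
  have h0 : ∀ᵐ ω ∂(Pr 1), occTime U ω = 0 := by
    rw [ae_iff]
    refine measure_mono_null (t := {ω | ω 0 = false}) ?_ ?_
    · intro ω hω
      simp only [mem_setOf_eq] at hω ⊢
      by_contra hcon
      apply hω
      have h1 : (0 : Site) ∈ evolve U (init ω) 0 := by
        simp only [evolve, init, mem_setOf_eq]
        simpa using hcon
      have h2 : occTime U ω ≤ ((0 : ℕ) : ℕ∞) :=
        iInf₂_le (f := fun (t : ℕ) (_ : (0 : Site) ∈ evolve U (init ω) t) => (t : ℕ∞)) 0 h1
      simpa using h2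
    · rw [pr_site, bern_false]; simp
  refine ⟨?_, h0⟩
  rw [meanT, lintegral_congr_ae (g := fun _ => 0)]
  · simp
  · filter_upwards [h0] with ω hω
    simp [hω]

theorem perc_one : Pr 1 {ω | Percolates U ω} = 1 := by
  have h0 : Pr 1 (⋃ x : Site, {ω | ω x = false}) = 0 := by
    apply measure_iUnion_null
    intro x
    rw [pr_site, bern_false]; simp
  have h1 : Pr 1 {ω | Percolates U ω}ᶜ = 0 := by
    refine measure_mono_null ?_ h0
    intro ω hω
    by_contra hcon
    simp only [mem_iUnion, mem_setOf_eq, not_exists, Bool.not_eq_false] at hcon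
    apply hω
    simp only [mem_setOf_eq, Percolates]
    apply eq_univ_of_forall
    intro x
    exact mem_iUnion.2 ⟨0, hcon x⟩
  have h2 : {ω | Percolates U ω} =ᵐ[Pr 1] univ := by
    rw [ae_eq_univ]; exact h1
  rw [measure_congr h2, measure_univ]

theorem pc_eq_one {F : Finset Site} (h0 : (0 : Site) ∈ F)
    (hF : ∀ x ∈ F, ∀ X ∈ U, ∃ v ∈ X, x + v ∈ F) : pc U = 1 := by
  apply le_antisymm (show pc U ≤ 1 from (pc U).2.2)
  refine le_sInf fun p hp => ?_
  by_contra hcon
  push Not at hcon
  have hp1 : (p : ℝ) < 1 := by exact_mod_cast hcon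
  set E : Set (Site → Bool) := (F : Set Site).pi fun _ => {false} with hE
  have hEm : MeasurableSet E := MeasurableSet.pi F.countable_toSet fun _ _ => measurableSet_singleton _
  have hEpos : 0 < Pr p E := by
    have : Pr p E = ∏ x ∈ F, bern p {false} :=
      Measure.infinitePi_pi (μ := fun _ : Site => bern p) (fun _ _ => measurableSet_singleton _)
    rw [this]
    rw [bern_false]
    apply pos_iff_ne_zero.2
    rw [Finset.prod_ne_zero_iff]
    intro x _
    simp only [ne_eq, ENNReal.ofReal_eq_zero, not_le]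
    linarith
  have hstay : ∀ ω ∈ E, ∀ t, ∀ x ∈ F, x ∉ evolve U (init ω) t := by
    intro ω hω t
    induction t with
    | zero =>
      intro x hx hx2
      have h1 : ω x = false := hω x hx
      have h2 : ω x = true := hx2
      rw [h1] at h2; exact absurd h2 (by simp)
    | succ t ih =>
      intro x hx hx2
      rcases hx2 with h | ⟨X, hX, h⟩
      · exact ih x hx h
      · obtain ⟨v, hv, hv2⟩ := hF x hx X hX
        exact ih (x + v) hv2 (h v hv)
  have hdisj : {ω | Percolates U ω} ⊆ Eᶜ := by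
    intro ω hω hωE
    have h1 : (0 : Site) ∈ span U (init ω) := by
      have : span U (init ω) = univ := hω
      rw [this]; exact mem_univ _
    obtain ⟨t, ht⟩ := mem_iUnion.1 h1
    exact hstay ω hωE t 0 h0 ht
  have h2 : (1 : ℝ≥0∞) ≤ Pr p Eᶜ := by
    have : Pr p {ω | Percolates U ω} = 1 := hp
    rw [← this]; exact measure_mono hdisj
  rw [prob_compl_eq_one_sub hEm] at h2
  have h3 : 1 - Pr p E < 1 := ENNReal.sub_lt_self ENNReal.one_ne_top one_ne_zero hEpos.ne'
  exact absurd h3 (not_lt.2 h2)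

end Pool.Agent.X139.UB
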