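import Mathlib
import Pool.Agent.X139.UB.Main

/-!
# Rules outside every open half plane: stable finite healthy sets
-/

open MeasureTheory Set ProbabilityTheory Filter Topology
open scoped ENNReal unitInterval

namespace Pool.Agent.X139.UB

theorem int_direction {X : Finset Site} (hne : X.Nonempty) (hX : InOpenHalfPlane X) :
    ∃ a b : ℤ, b ≠ 0 ∧ ∀ v ∈ X, 1 ≤ lin a b v := by
  obtain ⟨u, hu⟩ := hX
  obtain ⟨v0, hv0, hmin⟩ := X.exists_min_image
    (fun v => u.1 * (v.1 : ℝ) + u.2 * (v.2 : ℝ)) hne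
  set ε := u.1 * (v0.1 : ℝ) + u.2 * (v0.2 : ℝ) with hε
  have hε0 : 0 < ε := hu v0 hv0
  set M : ℝ := ∑ v ∈ X, (|(v.1 : ℝ)| + |(v.2 : ℝ)|) with hM
  obtain ⟨N, hN⟩ := exists_nat_gt (M / ε)
  have hN2 : M < N * ε := by rwa [div_lt_iff₀ hε0] at hN
  set a : ℤ := ⌊(N : ℝ) * u.1⌋ with ha
  obtain ⟨b, hb0, hb1, hb2⟩ : ∃ b : ℤ, b ≠ 0 ∧ |(b : ℝ) - N * u.2| ≤ 1 ∧ True := by
    by_cases h : ⌊(N : ℝ) * u.2⌋ = 0
    · refine ⟨1, one_ne_zero, ?_, trivial⟩
      have h1 := Int.floor_le ((N : ℝ) * u.2)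
      have h2 := Int.lt_floor_add_one ((N : ℝ) * u.2)
      rw [h] at h1 h2
      push_cast at h1 h2 ⊢
      rw [abs_le]; constructor <;> linarith
    · refine ⟨⌊(N : ℝ) * u.2⌋, h, ?_, trivial⟩
      have h1 := Int.floor_le ((N : ℝ) * u.2)
      have h2 := Int.lt_floor_add_one ((N : ℝ) * u.2)
      rw [abs_le]; constructor <;> linarith
  refine ⟨a, b, hb0, fun v hv => ?_⟩
  have ha1 : |(a : ℝ) - N * u.1| ≤ 1 := by
    have h1 := Int.floor_le ((N : ℝ) * u.1)
    have h2 := Int.lt_floor_add_one ((N : ℝ) * u.1)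
    rw [abs_le]; constructor <;> linarith
  have h1 : |((a : ℝ) - N * u.1) * v.1| ≤ |(v.1 : ℝ)| := by
    rw [abs_mul]; exact mul_le_of_le_one_left (abs_nonneg _) ha1
  have h2 : |((b : ℝ) - N * u.2) * v.2| ≤ |(v.2 : ℝ)| := by
    rw [abs_mul]; exact mul_le_of_le_one_left (abs_nonneg _) hb1
  have h3 : |(v.1 : ℝ)| + |(v.2 : ℝ)| ≤ M :=
    Finset.single_le_sum (f := fun v : Site => |(v.1 : ℝ)| + |(v.2 : ℝ)|)
      (fun _ _ => by positivity) hv
  have h4 : ε ≤ u.1 * (v.1 : ℝ) + u.2 * (v.2 : ℝ) := hmin v hv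
  have h5 : (N : ℝ) * ε ≤ N * (u.1 * (v.1 : ℝ) + u.2 * (v.2 : ℝ)) :=
    mul_le_mul_of_nonneg_left h4 (Nat.cast_nonneg _)
  have h6 : (0 : ℝ) < (a : ℝ) * v.1 + b * v.2 := by
    rw [abs_le] at h1 h2
    nlinarith [h1.1, h2.1]
  have h7 : 0 < a * v.1 + b * v.2 := by exact_mod_cast h6
  exact h7

theorem exists_weights {X : Finset Site} (hX : ¬ InOpenHalfPlane X) :
    ∃ l : Site → ℝ, (∀ v ∈ X, 0 ≤ l v) ∧ (∃ v ∈ X, 0 < l v) ∧
      ∑ v ∈ X, l v * (v.1 : ℝ) = 0 ∧ ∑ v ∈ X, l v * (v.2 : ℝ) = 0 := by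
  classical
  set c : Site → ℝ × ℝ := fun v => ((v.1 : ℝ), (v.2 : ℝ)) with hc
  have hinj : Function.Injective c := by
    intro v w h
    simp only [hc, Prod.mk.injEq] at h
    exact Prod.ext (by exact_mod_cast h.1) (by exact_mod_cast h.2)
  set s : Finset (ℝ × ℝ) := X.image c with hs
  by_cases h0 : (0 : ℝ × ℝ) ∈ convexHull ℝ (s : Set (ℝ × ℝ))
  · rw [Finset.mem_convexHull'] at h0
    obtain ⟨w, hw0, hw1, hw2⟩ := h0
    rw [hs, Finset.sum_image (fun x _ y _ h => hinj h)] at hw1 hw2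
    refine ⟨fun v => w (c v), fun v hv => hw0 _ (Finset.mem_image_of_mem c hv), ?_, ?_, ?_⟩
    · by_contra hcon
      push Not at hcon
      have : ∑ v ∈ X, w (c v) ≤ 0 := Finset.sum_nonpos hcon
      linarith
    · have := congrArg Prod.fst hw2
      rw [Prod.fst_sum] at this
      simpa [hc] using this
    · have := congrArg Prod.snd hw2
      rw [Prod.snd_sum] at this
      simpa [hc] using this
  · exfalso
    apply hX
    have hcl : IsClosed (convexHull ℝ (s : Set (ℝ × ℝ))) :=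
      (s.finite_toSet.isCompact_convexHull (𝕜 := ℝ)).isClosed
    obtain ⟨f, u, hf0, hf⟩ := geometric_hahn_banach_point_closed (convex_convexHull ℝ _) hcl h0
    refine ⟨(f (1, 0), f (0, 1)), fun v hv => ?_⟩
    have h1 : u < f (c v) := hf _ (subset_convexHull ℝ _ (by
      rw [hs]; exact Finset.mem_coe.2 (Finset.mem_image_of_mem c hv)))
    have h2 : c v = (v.1 : ℝ) • ((1 : ℝ), (0 : ℝ)) + (v.2 : ℝ) • ((0 : ℝ), (1 : ℝ)) := by
      simp [hc]
    rw [h2, map_add, map_smul, map_smul] at h1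
    simp only [smul_eq_mul] at h1
    rw [map_zero] at hf0
    linarith

variable {U : Finset (Finset Site)}

theorem finite_stable (hne : ∀ X ∈ U, X.Nonempty) (hU : ∀ X ∈ U, ¬ InOpenHalfPlane X) :
    ∃ F : Finset Site, (0 : Site) ∈ F ∧ ∀ x ∈ F, ∀ X ∈ U, ∃ v ∈ X, x + v ∈ F := by
  classical
  set W : Finset Site := U.biUnion id with hW
  set S : Set Site := {y | ∃ c : Site → ℝ, (∀ w ∈ W, |c w| ≤ 1) ∧
    (y.1 : ℝ) = ∑ w ∈ W, c w * (w.1 : ℝ) ∧ (y.2 : ℝ) = ∑ w ∈ W, c w * (w.2 : ℝ)} with hS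
  have hfin : S.Finite := by
    set M : ℤ := ∑ w ∈ W, (|w.1| + |w.2|) with hM
    refine (Finset.finite_toSet (Finset.Icc (-M) M ×ˢ Finset.Icc (-M) M)).subset ?_
    rintro y ⟨c, hc, h1, h2⟩
    have b1 : |(y.1 : ℝ)| ≤ M := by
      rw [h1, hM]
      refine (Finset.abs_sum_le_sum_abs _ _).trans ?_
      push_cast
      refine Finset.sum_le_sum fun w hw => ?_
      rw [abs_mul]
      have := mul_le_of_le_one_left (abs_nonneg (w.1 : ℝ)) (hc w hw)
      linarith [abs_nonneg (w.2 : ℝ)]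
    have b2 : |(y.2 : ℝ)| ≤ M := by
      rw [h2, hM]
      refine (Finset.abs_sum_le_sum_abs _ _).trans ?_
      push_cast
      refine Finset.sum_le_sum fun w hw => ?_
      rw [abs_mul]
      have := mul_le_of_le_one_left (abs_nonneg (w.2 : ℝ)) (hc w hw)
      linarith [abs_nonneg (w.1 : ℝ)]
    have b1' : |y.1| ≤ M := by exact_mod_cast b1
    have b2' : |y.2| ≤ M := by exact_mod_cast b2
    rw [abs_le] at b1' b2'
    simp only [Finset.coe_product, Finset.coe_Icc, mem_prod, mem_Icc]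
    exact ⟨b1', b2'⟩
  refine ⟨hfin.toFinset, ?_, ?_⟩
  · rw [hfin.mem_toFinset]
    exact ⟨fun _ => 0, by simp, by simp, by simp⟩
  · intro x hx X hX
    rw [hfin.mem_toFinset] at hx
    obtain ⟨c, hc, h1, h2⟩ := hx
    have hXW : X ⊆ W := by
      intro v hv
      rw [hW, Finset.mem_biUnion]; exact ⟨X, hX, hv⟩
    by_cases hcase : ∃ v ∈ X, c v ≤ 0
    · obtain ⟨v, hv, hcv⟩ := hcase
      refine ⟨v, hv, ?_⟩
      rw [hfin.mem_toFinset]
      refine ⟨fun w => c w + if w = v then 1 else 0, ?_, ?_, ?_⟩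
      · intro w hw
        have := abs_le.1 (hc w hw)
        by_cases hwv : w = v
        · subst hwv
          simp only [if_true]
          rw [abs_le]; constructor <;> linarith [this.1, this.2]
        · simpa [hwv] using hc w hw
      · simp only [add_mul, Finset.sum_add_distrib, ite_mul, one_mul, zero_mul,
          Finset.sum_ite_eq', hXW hv, if_true]
        rw [← h1]; simp
      · simp only [add_mul, Finset.sum_add_distrib, ite_mul, one_mul, zero_mul,
          Finset.sum_ite_eq', hXW hv, if_true]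
        rw [← h2]; simp
    · push Not at hcase
      obtain ⟨l, hl0, ⟨v1, hv1, hl1⟩, hs1, hs2⟩ := exists_weights (hU X hX)
      obtain ⟨v0, hv0, hmax⟩ := X.exists_max_image l (hne X hX)
      have hl : 0 < l v0 := lt_of_lt_of_le hl1 (hmax v1 hv1)
      refine ⟨v0, hv0, ?_⟩
      rw [hfin.mem_toFinset]
      refine ⟨fun w => c w + (if w = v0 then 1 else 0) - (if w ∈ X then l w / l v0 else 0),
        ?_, ?_, ?_⟩
      · intro w hw
        have hcw := abs_le.1 (hc w hw)
        by_cases hwX : w ∈ X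
        · have h3 : l w / l v0 ≤ 1 := (div_le_one hl).2 (hmax w hwX)
          have h4 : 0 ≤ l w / l v0 := div_nonneg (hl0 w hwX) hl.le
          have h5 := hcase w hwX
          by_cases hwv : w = v0
          · subst hwv
            simp only [if_true, hwX, div_self hl.ne']
            rw [abs_le]; constructor <;> linarith [hcw.1, hcw.2]
          · simp only [hwv, if_false, hwX, if_true]
            rw [abs_le]; constructor <;> linarith [hcw.1, hcw.2]
        · have hwv : w ≠ v0 := fun h => hwX (h ▸ hv0)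
          simp only [hwv, if_false, hwX]
          simpa using hc w hw
      · have e1 : ∑ w ∈ W, (if w ∈ X then l w / l v0 else 0) * (w.1 : ℝ) = 0 := by
          have : ∀ w ∈ W, (if w ∈ X then l w / l v0 else 0) * (w.1 : ℝ) =
              if w ∈ X then (l w * (w.1 : ℝ)) / l v0 else 0 := by
            intro w _
            split_ifs
            · ring
            · ring
          rw [Finset.sum_congr rfl this, Finset.sum_ite_mem, Finset.inter_eq_right.2 hXW,
            ← Finset.sum_div, hs1, zero_div]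
        simp only [sub_mul, add_mul, Finset.sum_sub_distrib, Finset.sum_add_distrib]
        rw [e1]
        simp only [ite_mul, one_mul, zero_mul, Finset.sum_ite_eq', hXW hv0, if_true]
        rw [← h1]; simp
      · have e1 : ∑ w ∈ W, (if w ∈ X then l w / l v0 else 0) * (w.2 : ℝ) = 0 := by
          have : ∀ w ∈ W, (if w ∈ X then l w / l v0 else 0) * (w.2 : ℝ) =
              if w ∈ X then (l w * (w.2 : ℝ)) / l v0 else 0 := by
            intro w _
            split_ifs
            · ring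
            · ring
          rw [Finset.sum_congr rfl this, Finset.sum_ite_mem, Finset.inter_eq_right.2 hXW,
            ← Finset.sum_div, hs2, zero_div]
        simp only [sub_mul, add_mul, Finset.sum_sub_distrib, Finset.sum_add_distrib]
        rw [e1]
        simp only [ite_mul, one_mul, zero_mul, Finset.sum_ite_eq', hXW hv0, if_true]
        rw [← h2]; simp

/-- A subcritical family has no empty rule. -/
theorem Subcritical.nonempty (h : Subcritical U) : ∀ X ∈ U, X.Nonempty := by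
  intro X hX
  by_contra hcon
  rw [Finset.not_nonempty_iff_eq_empty] at hcon
  have h1 : ∀ A : Set Site, span U A = univ := by
    intro A
    apply eq_univ_of_forall
    intro x
    refine mem_iUnion.2 ⟨1, Or.inr ⟨X, hX, ?_⟩⟩
    rw [hcon]; simp
  have h2 : ∀ θ, ¬ StableDir U θ := by
    intro θ hθ
    have h3 : (0 : Site) ∈ halfPlane θ := by
      rw [← hθ, h1]; exact mem_univ _
    simp [halfPlane] at h3
  have h3 := h 0
  simp [h2] at h3

/-- The main statement for families without empty rule. -/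
theorem main (hne : ∀ X ∈ U, X.Nonempty) :
    (meanT U (pc U) < ⊤ ↔ pc U = 1) ∧
    (pc U = 1 ↔ ∀ X ∈ U, ¬ InOpenHalfPlane X) ∧
    (pc U ≠ 1 → ∃ c : ℝ, 0 < c ∧ ∀ t : ℕ,
      ENNReal.ofReal (c / (t + 1)) ≤ Pr (pc U) {ω | (t : ℕ∞) < occTime U ω}) ∧
    (pc U = 1 → Pr (pc U) {ω | Percolates U ω} = 1 ∧ ∀ᵐ ω ∂(Pr (pc U)), occTime U ω = 0) := by
  obtain ⟨r, hr⟩ := exists_range U
  have hA : ∀ X ∈ U, InOpenHalfPlane X → meanT U (pc U) = ⊤ ∧ ∃ c : ℝ, 0 < c ∧ ∀ t : ℕ,
      ENNReal.ofReal (c / (t + 1)) ≤ Pr (pc U) {ω | (t : ℕ∞) < occTime U ω} := by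
    intro X hX hXo
    obtain ⟨a, b, hb, hlin⟩ := int_direction (hne X hX) hXo
    refine ⟨meanT_eq_top hne hr hX hb hlin, ?_⟩
    obtain ⟨c, hc, h⟩ := healthy_lower hne hr hX hb hlin
    exact ⟨c, hc, fun t => (h t).trans (measure_mono (healthy_sub t))⟩
  have hB : (∀ X ∈ U, ¬ InOpenHalfPlane X) → pc U = 1 := by
    intro h
    obtain ⟨F, h0, hF⟩ := finite_stable hne h
    exact pc_eq_one h0 hF
  have hone : pc U = 1 → meanT U (pc U) = 0 := by
    intro h; rw [h]; exact meanT_one.1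
  have hC : pc U = 1 → ∀ X ∈ U, ¬ InOpenHalfPlane X := by
    intro h X hX hXo
    have h1 := (hA X hX hXo).1
    rw [hone h] at h1
    exact absurd h1 (by simp)
  have hex : pc U ≠ 1 → ∃ X ∈ U, InOpenHalfPlane X := by
    intro h
    by_contra hcon
    push Not at hcon
    exact h (hB hcon)
  refine ⟨⟨fun h => ?_, fun h => ?_⟩, ⟨hC, hB⟩, fun h => ?_, fun h => ?_⟩
  · by_contra hcon
    obtain ⟨X, hX, hXo⟩ := hex hcon
    rw [(hA X hX hXo).1] at h
    exact absurd h (lt_irrefl _)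
  · rw [hone h]; exact ENNReal.zero_lt_top
  · obtain ⟨X, hX, hXo⟩ := hex h
    exact (hA X hX hXo).2
  · rw [h]; exact ⟨perc_one, meanT_one.2⟩

end Pool.Agent.X139.UB
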